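import Pool.Agent.Y192.FA.GDefs
import Pool.Agent.TH143.LG.Laur

/-!
Maps from the projective line without at most two points to the covers.
-/

set_option autoImplicit false
set_option linter.unusedSectionVars false

namespace Pool.Agent.Y77.FG

open MvPolynomial FF Pool.Agent.W603.LV Pool.Agent.W603.PV Pool.Agent.W619.PQ
open Pool.Agent.Y192.KC (Cov ZCov ZField Poly WH PseudoGm GmCurve Pt Same)
open Pool.Agent.Y192.FA (MapTo St_fsmall)
open Pool.Agent.TH143.LG (ge_aeval poly_of_reg laurent)

section homog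

variable {n r : ℕ} {L : Type} [Field L] [Algebra ℂ L]

/-- weighted homogeneous polynomials -/
theorem aeval_wh {X : Cov n r} {m : ℕ} {B : Poly n r} {D : ℕ} (hB : WH X m B D) (s : L)
    (u : Fin (n + 1) → L) (v : Fin r → L) :
    aeval (Sum.elim (fun i => s * u i) (fun j => s ^ X.wt m j * v j)) B =
      s ^ D * aeval (Sum.elim u v) B := by
  rw [aeval_def, aeval_def, eval₂_eq, eval₂_eq, Finset.mul_sum]
  refine Finset.sum_congr rfl fun d hd => ?_
  have h1 := hB (mem_support_iff.mp hd)
  rw [Finsupp.weight_apply] at h1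
  have h2 : ∏ i ∈ d.support, Sum.elim (fun i => s * u i) (fun j => s ^ X.wt m j * v j) i ^ d i =
      s ^ D * ∏ i ∈ d.support, Sum.elim u v i ^ d i := by
    rw [← h1, Finsupp.sum, ← Finset.prod_pow_eq_pow_sum, ← Finset.prod_mul_distrib]
    refine Finset.prod_congr rfl fun i _ => ?_
    rcases i with i | j
    · simp only [Sum.elim_inl, smul_eq_mul, mul_one]
      rw [mul_pow]
    · simp only [Sum.elim_inr, smul_eq_mul]
      rw [mul_pow, ← pow_mul, mul_comm (X.wt m j)]
  rw [h2]
  ring

/-- homogeneous polynomials -/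
theorem aeval_h {G : MvPolynomial (Fin (n + 1)) ℂ} {q : ℕ} (hG : G.IsHomogeneous q) (c : L)
    (x : Fin (n + 1) → L) : aeval (fun i => c * x i) G = c ^ q * aeval x G := by
  rw [aeval_def, aeval_def, eval₂_eq, eval₂_eq, Finset.mul_sum]
  refine Finset.sum_congr rfl fun d hd => ?_
  have h1 : ∑ i ∈ d.support, d i = q := by
    have := hG (mem_support_iff.mp hd)
    rw [Finsupp.weight_apply, Finsupp.sum] at this
    simpa using this
  have h2 : ∏ i ∈ d.support, (c * x i) ^ d i = c ^ q * ∏ i ∈ d.support, x i ^ d i := by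
    rw [← h1, ← Finset.prod_pow_eq_pow_sum, ← Finset.prod_mul_distrib]
    exact Finset.prod_congr rfl fun i _ => mul_pow _ _ _
  rw [h2]
  ring

/-- the equations of the cover -/
theorem rel {X : Cov n r} {m : ℕ} (he : ∀ j, X.e j ∣ m) {t : Fin (n + 1) → L} {w : Fin r → L}
    (heqn : ∀ j, w j ^ X.e j = aeval (fun i => t i ^ m) (X.F j)) {M : Type} [Field M]
    [Algebra ℂ M] {u : Fin (n + 1) → M} {v : Fin r → M}
    (hmem : ∀ (B : Poly n r) (D : ℕ), WH X m B D → aeval (Sum.elim t w) B = 0 →
      aeval (Sum.elim u v) B = 0) (j : Fin r) :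
    v j ^ X.e j = aeval (fun i => u i ^ m) (X.F j) := by
  set Q : Poly n r := MvPolynomial.X (Sum.inr j) ^ X.e j -
    aeval (fun i => (MvPolynomial.X (Sum.inl i) : Poly n r) ^ m) (X.F j) with hQ
  have hw : X.wt m j * X.e j = m * X.d j := by
    unfold Cov.wt
    exact Nat.div_mul_cancel ((he j).mul_right _)
  have hQ1 : WH X m Q (m * X.d j) := by
    unfold WH
    rw [hQ]
    refine (weightedHomogeneousSubmodule ℂ _ _).sub_mem ?_ ?_
    · have h5 : IsWeightedHomogeneous (Sum.elim (fun _ => 1) (X.wt m))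
          ((MvPolynomial.X (Sum.inr j) : Poly n r) ^ X.e j) (X.e j • X.wt m j) :=
        (isWeightedHomogeneous_X ℂ (Sum.elim (fun _ => 1) (X.wt m)) (Sum.inr j)).pow _
      rw [smul_eq_mul, mul_comm, hw] at h5
      exact h5
    · rw [aeval_def, eval₂_eq]
      refine Submodule.sum_mem _ fun d hd => ?_
      have h5 := X.hF j (mem_support_iff.mp hd)
      rw [Finsupp.weight_apply] at h5
      simp only [Pi.one_apply, smul_eq_mul, mul_one] at h5
      have h6 : IsWeightedHomogeneous (Sum.elim (fun _ => 1) (X.wt m))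
          (∏ i ∈ d.support, ((MvPolynomial.X (Sum.inl i) : Poly n r) ^ m) ^ d i)
          (∑ i ∈ d.support, d i • (m • 1)) := by
        refine IsWeightedHomogeneous.prod _ _ _ fun i _ => ?_
        exact (((isWeightedHomogeneous_X ℂ (Sum.elim (fun _ => 1) (X.wt m)) (Sum.inl i)).pow
          _).pow _)
      have h7 : ∑ i ∈ d.support, d i • (m • 1) = m * X.d j := by
        rw [← h5, Finsupp.sum, Finset.mul_sum]
        refine Finset.sum_congr rfl fun i _ => ?_
        simp only [smul_eq_mul, mul_one]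
        rw [mul_comm]
      rw [h7] at h6
      have h8 := (isWeightedHomogeneous_C (σ := Fin (n + 1) ⊕ Fin r)
        (Sum.elim (fun _ => 1) (X.wt m)) (coeff d (X.F j))).mul h6
      rw [zero_add] at h8
      exact h8
  have hQ2 : aeval (Sum.elim t w) Q = 0 := by
    rw [hQ, map_sub, map_pow, aeval_X, Sum.elim_inr, heqn j, ← AlgHom.comp_apply, comp_aeval]
    simp only [map_pow, aeval_X, Sum.elim_inl]
    exact sub_self _
  have h9 := hmem Q _ hQ1 hQ2
  rw [hQ, map_sub, map_pow, aeval_X, Sum.elim_inr, ← AlgHom.comp_apply, comp_aeval] at h9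
  simp only [map_pow, aeval_X, Sum.elim_inl] at h9
  exact sub_eq_zero.1 h9

/-- substitution of values of polynomials -/
theorem aeval_poly {ι : Type} {M : Type} [Field M] [Algebra ℂ M] (T : M)
    (p : ι → Polynomial ℂ) (B : MvPolynomial ι ℂ) :
    Polynomial.aeval T (aeval p B : Polynomial ℂ) = aeval (fun i => Polynomial.aeval T (p i)) B := by
  rw [← AlgHom.comp_apply, comp_aeval]

theorem eval_poly {ι : Type} (z : ℂ) (p : ι → Polynomial ℂ) (B : MvPolynomial ι ℂ) :
    (aeval p B : Polynomial ℂ).eval z = eval (fun i => (p i).eval z) B := by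
  have h := aeval_poly (M := ℂ) z p B
  rw [Polynomial.coe_aeval_eq_eval] at h
  rw [← coe_aeval_eq_eval]
  exact h

end homog

section line

variable {M : Type} [Field M] [Algebra ℂ M] [IsFF ℂ M] {n : ℕ}

theorem clearDen {T : M} (hT : IntermediateField.adjoin ℂ {T} = ⊤) (u : Fin (n + 1) → M) :
    ∃ (l : M) (p : Fin (n + 1) → Polynomial ℂ), l ≠ 0 ∧ ∀ i, l * u i = Polynomial.aeval T (p i) := by
  classical
  have h1 : ∀ i, ∃ r s : Polynomial ℂ, Polynomial.aeval T s ≠ 0 ∧
      Polynomial.aeval T s * u i = Polynomial.aeval T r := by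
    intro i
    have h2 : u i ∈ IntermediateField.adjoin ℂ {T} := by
      rw [hT]
      exact IntermediateField.mem_top
    obtain ⟨r, s, hrs⟩ := (IntermediateField.mem_adjoin_simple_iff ℂ (u i)).1 h2
    by_cases h0 : Polynomial.aeval T s = 0
    · refine ⟨0, 1, by rw [map_one]; exact one_ne_zero, ?_⟩
      rw [hrs, h0, div_zero, map_zero, mul_zero]
    · exact ⟨r, s, h0, by rw [hrs, mul_div_cancel₀ _ h0]⟩
  choose r s hs hr using h1
  refine ⟨∏ j, Polynomial.aeval T (s j), fun i => r i * ∏ j ∈ Finset.univ.erase i, s j,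
    Finset.prod_ne_zero_iff.2 fun j _ => hs j, fun i => ?_⟩
  rw [map_mul, map_prod, ← hr i, ← Finset.mul_prod_erase Finset.univ _ (Finset.mem_univ i)]
  ring

theorem coprimeRep {T : M} (hT : IntermediateField.adjoin ℂ {T} = ⊤) (u : Fin (n + 1) → M)
    {i0 : Fin (n + 1)} (hi0 : u i0 ≠ 0) :
    ∃ (l : M) (p : Fin (n + 1) → Polynomial ℂ), l ≠ 0 ∧
      (∀ i, l * u i = Polynomial.aeval T (p i)) ∧ ∀ z : ℂ, ∃ i, (p i).eval z ≠ 0 := by
  have htr := transcendental_of_top hT
  have key : ∀ (k : ℕ) (l : M) (p : Fin (n + 1) → Polynomial ℂ), l ≠ 0 →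
      (∀ i, l * u i = Polynomial.aeval T (p i)) → (p i0).natDegree = k →
      ∃ (l : M) (p : Fin (n + 1) → Polynomial ℂ), l ≠ 0 ∧
      (∀ i, l * u i = Polynomial.aeval T (p i)) ∧ ∀ z : ℂ, ∃ i, (p i).eval z ≠ 0 := by
    intro k
    induction k with
    | zero =>
      intro l p hl hp hk
      refine ⟨l, p, hl, hp, fun z => ⟨i0, fun h0 => ?_⟩⟩
      obtain ⟨c, hc⟩ := Polynomial.natDegree_eq_zero.1 hk
      rw [← hc, Polynomial.eval_C] at h0
      have h1 := hp i0
      rw [← hc, h0, map_zero, map_zero] at h1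
      exact mul_ne_zero hl hi0 h1
    | succ k ih =>
      intro l p hl hp hk
      by_cases h : ∀ z : ℂ, ∃ i, (p i).eval z ≠ 0
      · exact ⟨l, p, hl, hp, h⟩
      push Not at h
      obtain ⟨z, hz⟩ := h
      have h1 : ∀ i, ∃ q : Polynomial ℂ, p i = (Polynomial.X - Polynomial.C z) * q := fun i =>
        Polynomial.dvd_iff_isRoot.2 (hz i)
      choose q hq using h1
      have hne : T - algebraMap ℂ M z ≠ 0 := sub_const_ne htr z
      have h2 : ∀ i, l * u i = (T - algebraMap ℂ M z) * Polynomial.aeval T (q i) := by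
        intro i
        rw [hp i, hq i, map_mul, map_sub, Polynomial.aeval_X, Polynomial.aeval_C]
      refine ih (l / (T - algebraMap ℂ M z)) q (div_ne_zero hl hne) (fun i => ?_) ?_
      · rw [div_mul_eq_mul_div, h2 i, mul_div_cancel_left₀ _ hne]
      · have hq0 : q i0 ≠ 0 := by
          intro h0
          have h3 := h2 i0
          rw [h0, map_zero, mul_zero] at h3
          exact mul_ne_zero hl hi0 h3
        rw [hq i0, Polynomial.natDegree_mul (Polynomial.X_sub_C_ne_zero z) hq0,
          Polynomial.natDegree_X_sub_C] at hk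
        omega
  obtain ⟨l, p, hl, hp⟩ := clearDen hT u
  exact key _ l p hl hp rfl

variable {T : M} {z : ℂ} {P : Place ℂ M}

theorem reg_T (hP : P.ord (T - algebraMap ℂ M z) = 1) : Ge P 0 T := by
  have h1 : Ge P 0 (T - algebraMap ℂ M z) := Or.inr (by omega)
  have h2 := h1.add (Ge.const z)
  rwa [sub_add_cancel] at h2

theorem ord_ge (hP : P.ord (T - algebraMap ℂ M z) = 1) {g : Polynomial ℂ}
    (hg : Polynomial.aeval T g ≠ 0) : 0 ≤ P.ord (Polynomial.aeval T g) :=
  (ge_aeval (reg_T hP) g).resolve_left hg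

theorem ord_of_root (hP : P.ord (T - algebraMap ℂ M z) = 1) {g : Polynomial ℂ}
    (hg : Polynomial.aeval T g ≠ 0) (h0 : g.eval z = 0) : 1 ≤ P.ord (Polynomial.aeval T g) := by
  obtain ⟨h, rfl⟩ := Polynomial.dvd_iff_isRoot.2 (show g.IsRoot z from h0)
  rw [map_mul, map_sub, Polynomial.aeval_X, Polynomial.aeval_C] at hg ⊢
  have h1 := left_ne_zero_of_mul hg
  have h2 := right_ne_zero_of_mul hg
  rw [P.ord_mul h1 h2, hP]
  have := ord_ge hP h2
  omega

theorem ord_of_not_root (hP : P.ord (T - algebraMap ℂ M z) = 1) {g : Polynomial ℂ}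
    (h0 : g.eval z ≠ 0) :
    Polynomial.aeval T g ≠ 0 ∧ P.ord (Polynomial.aeval T g) = 0 := by
  obtain ⟨q, hq⟩ := Polynomial.X_sub_C_dvd_sub_C_eval (a := z) (p := g)
  have h6 : Ge P 1 (Polynomial.aeval T g - algebraMap ℂ M (g.eval z)) := by
    have h7 := congrArg (Polynomial.aeval T) hq
    rw [map_sub, Polynomial.aeval_C, map_mul, map_sub, Polynomial.aeval_X,
      Polynomial.aeval_C] at h7
    rw [h7]
    have h3 : Ge P 1 (T - algebraMap ℂ M z) := Or.inr (by omega)
    have h4 := h3.mul (ge_aeval (reg_T hP) q)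
    rwa [add_zero] at h4
  have key : ¬ Ge P 1 (Polynomial.aeval T g) := by
    intro h1
    have h8 := h1.sub h6
    have h9 : Polynomial.aeval T g - (Polynomial.aeval T g - algebraMap ℂ M (g.eval z)) =
        algebraMap ℂ M (g.eval z) := by ring
    rw [h9] at h8
    rcases h8 with h8 | h8
    · rw [map_eq_zero] at h8
      exact h0 h8
    · rw [P.ord_const h0] at h8
      omega
  have hne : Polynomial.aeval T g ≠ 0 := fun h => key (Or.inl h)
  refine ⟨hne, ?_⟩
  have h1 := ord_ge hP hne
  by_contra h2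
  exact key (Or.inr (by omega))

/-- the minimum of the orders of the coordinates -/
theorem pord_eq (hP : P.ord (T - algebraMap ℂ M z) = 1) {l : M} (hl : l ≠ 0)
    {u : Fin (n + 1) → M} {p : Fin (n + 1) → Polynomial ℂ}
    (hp : ∀ i, l * u i = Polynomial.aeval T (p i)) (hz : ∃ i, (p i).eval z ≠ 0) :
    pord P u = - P.ord l := by
  obtain ⟨i, hi⟩ := hz
  obtain ⟨h1, h2⟩ := ord_of_not_root hP hi
  have hui : u i ≠ 0 := by
    intro h
    rw [← hp i, h, mul_zero] at h1
    exact h1 rfl
  rw [← hp i, P.ord_mul hl hui] at h2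
  have h3 := pord_le P hui
  obtain ⟨j, hj, h4⟩ := exists_pord P (f := u) ⟨i, hui⟩
  have h5 : Polynomial.aeval T (p j) ≠ 0 := by
    rw [← hp j]
    exact mul_ne_zero hl hj
  have h6 := ord_ge hP h5
  rw [← hp j, P.ord_mul hl hj] at h6
  omega

end line

/-- **FG5** -/
theorem t_fsmall : St_fsmall := by
  intro n r X m hm he L _ _ t w hL hGm
  obtain ⟨B, D, hBD, hB0, hB⟩ := hGm
  refine ⟨B, D, hBD, hB0, ?_⟩
  intro M _ _ _ S0 u v hc0 hcS0 hmap0 hBuv
  -- a nonempty exceptional set
  obtain ⟨S, hS, hcS, hmap⟩ : ∃ S : Finset (Place ℂ M), S.Nonempty ∧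
      canDeg ℂ M + S.card ≤ 0 ∧ MapTo X.toCov m t w S u v := by
    by_cases h : S0.Nonempty
    · exact ⟨S0, h, hcS0, hmap0⟩
    · obtain ⟨T0, hT0⟩ := Pool.Agent.TH143.GE.rational_of_neg (k := ℂ) (K := M) hc0
      obtain ⟨P, -⟩ := zero_unique hT0
      refine ⟨{P}, Finset.singleton_nonempty P, ?_, ?_⟩
      · rw [Finset.card_singleton]
        push_cast
        omega
      · refine ⟨hmap0.ne, hmap0.mem, hmap0.G_ne, fun Q _ => hmap0.off Q ?_⟩
        rw [Finset.not_nonempty_iff_eq_empty.1 h]
        exact Finset.notMem_empty _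
  obtain ⟨T, hT, hlaur⟩ := laurent hS hcS
  have htr := transcendental_of_top hT
  have hinj : ∀ g : Polynomial ℂ, Polynomial.aeval T g = 0 → g = 0 := fun g hg =>
    transcendental_iff.1 htr g hg
  obtain ⟨i0, hi0⟩ := hmap.ne
  obtain ⟨l, p, hl, hp, hcop⟩ := coprimeRep hT u hi0
  -- the places over the multiplicative group are not exceptional
  have hPS : ∀ z : ℂ, z ≠ 0 → ∀ P : Place ℂ M, P.ord (T - algebraMap ℂ M z) = 1 → P ∉ S := by
    intro z hz P hP hPS
    have hne : T - algebraMap ℂ M z ≠ 0 := sub_const_ne htr z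
    obtain ⟨P', hP', huniq⟩ := zero_unique (top_sub hT z)
    obtain ⟨k, q, hq⟩ := hlaur (T - algebraMap ℂ M z)⁻¹ (by
      intro Q hQ
      rw [Q.ord_inv] at hQ
      have h1 := huniq Q (by omega)
      have h2 := huniq P (by omega)
      rw [h1, ← h2]
      exact hPS)
    have h1 : Polynomial.aeval T (Polynomial.X ^ k - (Polynomial.X - Polynomial.C z) * q) = 0 := by
      rw [map_sub, map_pow, Polynomial.aeval_X, map_mul, map_sub, Polynomial.aeval_X,
        Polynomial.aeval_C, ← hq, mul_inv_cancel_left₀ hne, sub_self]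
    have h2 := congrArg (Polynomial.eval z) (hinj _ h1)
    rw [Polynomial.eval_sub, Polynomial.eval_pow, Polynomial.eval_X, Polynomial.eval_mul,
      Polynomial.eval_sub, Polynomial.eval_X, Polynomial.eval_C, sub_self, zero_mul, sub_zero,
      Polynomial.eval_zero] at h2
    exact hz (eq_zero_of_pow_eq_zero h2)
  -- the scaled relations
  have hmem' : ∀ (B : Poly n r) (D : ℕ), WH X.toCov m B D → aeval (Sum.elim t w) B = 0 →
      aeval (Sum.elim (fun i => l * u i) (fun j => l ^ X.wt m j * v j)) B = 0 := by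
    intro B D h1 h2
    rw [aeval_wh h1, hmap.mem B D h1 h2, mul_zero]
  have hrel := rel he hL.eqn hmem'
  obtain ⟨P0, hP0, hP0u⟩ := pole_unique hT
  have hT0 : T ≠ 0 := by
    rintro rfl
    exact htr isAlgebraic_zero
  have hs : ∀ j, ∃ s : Polynomial ℂ, l ^ X.wt m j * v j = Polynomial.aeval T s := by
    intro j
    refine poly_of_reg hT (P0 := P0) (by omega) fun P hP => ?_
    have hreg : Ge P 0 T := by
      right
      by_contra hcon
      exact hP (hP0u P (by omega))
    have h1 : Ge P 0 ((l ^ X.wt m j * v j) ^ X.e j) := by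
      rw [hrel j]
      have h2 : (fun i => (l * u i) ^ m) = fun i => Polynomial.aeval T (p i ^ m) := by
        funext i
        rw [hp i, map_pow]
      rw [h2, ← aeval_poly]
      exact ge_aeval hreg _
    by_cases h0 : l ^ X.wt m j * v j = 0
    · rw [h0, P.ord_zero]
    · have h2 := h1.resolve_left (pow_ne_zero _ h0)
      rw [P.ord_pow] at h2
      have h3 : (0 : ℤ) < X.e j := by exact_mod_cast X.he j
      by_contra h4
      have h5 : P.ord (l ^ X.wt m j * v j) ≤ -1 := by omega
      have h6 : (X.e j : ℤ) * P.ord (l ^ X.wt m j * v j) ≤ X.e j * (-1) :=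
        mul_le_mul_of_nonneg_left h5 h3.le
      omega
  choose s hs using hs
  have hcomb : (Sum.elim (fun i => l * u i) (fun j => l ^ X.wt m j * v j)) =
      fun i => Polynomial.aeval T (Sum.elim p s i) := by
    funext i
    rcases i with i | j
    · exact hp i
    · exact hs j
  have hevl : ∀ z : ℂ, (fun i => (Sum.elim p s i).eval z) =
      Sum.elim (fun i => (p i).eval z) (fun j => (s j).eval z) := by
    intro z
    funext i
    rcases i with i | j <;> rfl
  -- the points
  have hpt : ∀ z : ℂ, z ≠ 0 → Pt X.toCov m t w (fun i => (p i).eval z) (fun j => (s j).eval z) := by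
    intro z hz
    refine ⟨?_, ?_, ?_⟩
    · obtain ⟨i, hi⟩ := hcop z
      exact fun h => hi (congrFun h i)
    · intro B D h1 h2
      have h3 := hmem' B D h1 h2
      rw [hcomb, ← aeval_poly] at h3
      have h4 := congrArg (Polynomial.eval z) (hinj _ h3)
      rw [eval_poly, hevl, Polynomial.eval_zero] at h4
      exact h4
    · obtain ⟨P, hP, -⟩ := zero_unique (top_sub hT z)
      have hPnS := hPS z hz P hP
      have h1 := hmap.off P hPnS
      rw [pord_eq hP hl hp (hcop z)] at h1
      have h2 : Polynomial.aeval T (aeval (fun i => p i ^ m) X.G : Polynomial ℂ) =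
          (l ^ m) ^ X.q * aeval (fun i => u i ^ m) X.G := by
        rw [aeval_poly, ← aeval_h X.hG]
        congr 1
        have h3 : (fun i => Polynomial.aeval T (p i ^ m)) = fun i => l ^ m * u i ^ m := by
          funext i
          rw [map_pow, ← hp i, mul_pow]
        rw [h3]
      have h3 : Polynomial.aeval T (aeval (fun i => p i ^ m) X.G : Polynomial ℂ) ≠ 0 := by
        rw [h2]
        exact mul_ne_zero (pow_ne_zero _ (pow_ne_zero _ hl)) hmap.G_ne
      intro h4
      have h5 : (aeval (fun i => p i ^ m) X.G : Polynomial ℂ).eval z = 0 := by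
        rw [eval_poly]
        simp only [Polynomial.eval_pow]
        exact h4
      have h6 := ord_of_root hP h3 h5
      rw [h2, P.ord_mul (pow_ne_zero _ (pow_ne_zero _ hl)) hmap.G_ne, P.ord_pow, P.ord_pow,
        h1] at h6
      have h7 : (X.q : ℤ) * (m * P.ord l) + m * X.q * (- P.ord l) = 0 := by ring
      omega
  by_cases hcst : ∃ z z', z ≠ 0 ∧ z' ≠ 0 ∧ ¬ Same X.toCov m (fun i => (p i).eval z)
      (fun j => (s j).eval z) (fun i => (p i).eval z') (fun j => (s j).eval z')
  · -- a nonconstant map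
    exfalso
    have h1 := hB p s ⟨hpt, hcst⟩
    have h2 : (aeval (Sum.elim p s) B : Polynomial ℂ) = 0 := by
      refine Polynomial.eq_of_infinite_eval_eq _ _
        ((Set.infinite_of_finite_compl (s := {0}ᶜ) ?_).mono fun z hz => ?_)
      · rw [compl_compl]
        exact Set.finite_singleton _
      · change Polynomial.eval z _ = Polynomial.eval z 0
        rw [eval_poly, hevl, h1 z hz, Polynomial.eval_zero]
    have h3 := aeval_wh hBD l u v
    rw [hcomb, ← aeval_poly, h2, map_zero] at h3
    exact mul_ne_zero (pow_ne_zero D hl) hBuv h3.symm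
  · -- a constant map
    push Not at hcst
    obtain ⟨i1, hi1⟩ := hcop 1
    have h1 : ∀ i, p i * Polynomial.C ((p i1).eval 1) = p i1 * Polynomial.C ((p i).eval 1) := by
      intro i
      refine Polynomial.eq_of_infinite_eval_eq _ _
        ((Set.infinite_of_finite_compl (s := {0}ᶜ) ?_).mono fun z hz => ?_)
      · rw [compl_compl]
        exact Set.finite_singleton _
      · obtain ⟨c, _, hc, _⟩ := hcst 1 z one_ne_zero hz
        change Polynomial.eval z _ = Polynomial.eval z _
        rw [Polynomial.eval_mul, Polynomial.eval_mul, Polynomial.eval_C, Polynomial.eval_C]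
        have h2 : (p i).eval z = c * (p i).eval 1 := hc i
        have h3 : (p i1).eval z = c * (p i1).eval 1 := hc i1
        rw [h2, h3]
        ring
    have h2 : ∀ i, u i * algebraMap ℂ M ((p i1).eval 1) =
        u i1 * algebraMap ℂ M ((p i).eval 1) := by
      intro i
      have h3 := congrArg (Polynomial.aeval T) (h1 i)
      rw [map_mul, map_mul, Polynomial.aeval_C, Polynomial.aeval_C, ← hp, ← hp, mul_assoc,
        mul_assoc] at h3
      exact mul_left_cancel₀ hl h3
    have h4 : algebraMap ℂ M ((p i1).eval 1) ≠ 0 := by rwa [Ne, map_eq_zero]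
    have hui1 : u i1 ≠ 0 := by
      intro h0
      have h3 := h2 i0
      rw [h0, zero_mul] at h3
      exact mul_ne_zero hi0 h4 h3
    have h5 : ∀ P : Place ℂ M, pord P u = P.ord (u i1) := by
      intro P
      obtain ⟨j, hj, h6⟩ := exists_pord P (f := u) ⟨i1, hui1⟩
      have h7 : algebraMap ℂ M ((p j).eval 1) ≠ 0 := by
        intro h0
        have h3 := h2 j
        rw [h0, mul_zero] at h3
        exact mul_ne_zero hj h4 h3
      have h8 := congrArg P.ord (h2 j)
      have h9 : (p j).eval 1 ≠ 0 := by rwa [Ne, map_eq_zero] at h7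
      rw [P.ord_mul hj h4, P.ord_mul hui1 h7, P.ord_const hi1, P.ord_const h9] at h8
      omega
    unfold pht
    rw [finsum_congr h5, sum_ord (k := ℂ) (u i1), neg_zero]

end Pool.Agent.Y77.FG

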